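import Pool.Agent.R763.KO.Stm

set_option autoImplicit false

open Filter Topology Set

namespace Pool.Agent.R763.KO

theorem isOpen_Om : IsOpen Om := by
  have h1 : IsOpen {z : ℂ | 0 < z.re} := isOpen_lt continuous_const Complex.continuous_re
  have h2 : IsOpen {z : ℂ | z.re ^ 2 / (4 * Real.pi ^ 2) - Real.pi ^ 2 < z.im} :=
    isOpen_lt (by fun_prop) Complex.continuous_im
  exact h1.inter h2

theorem asm (h2 : S2) (h3 : S3) (h4 : S4) :
    ∃ (φ : ℝ → ℂ → ℂ) (h : ℂ → ℂ) (τ : ℂ), IsSemigroup φ ∧ IsDW φ τ ∧ IsKoenigs φ h ∧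
      (∃ C : ℝ, ∀ t : ℝ, 1 ≤ t → vT φ τ t ≤ (1 / 4) * Real.log t + C) ∧
      ¬ ∃ C : ℝ, ∀ t : ℝ, 1 ≤ t → |vT φ τ t - (1 / 2) * Real.log t| < C := by
  obtain ⟨hb, hd, hdd⟩ := h2
  obtain ⟨h, hh, hs, hk⟩ := h3 Om G isOpen_Om hb hd hdd
    (by
      rintro z ⟨hz1, hz2⟩ t ht
      refine ⟨?_, ?_⟩
      · simpa using hz1
      · simp only [Complex.add_re, Complex.mul_re, Complex.I_re, Complex.ofReal_re, zero_mul,
          Complex.I_im, Complex.ofReal_im, mul_zero, sub_self, add_zero, Complex.add_im,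
          Complex.mul_im, one_mul, zero_add]
        linarith)
    (by
      intro z
      constructor
      · intro hz
        refine ⟨max 0 (z.re ^ 2 / (4 * Real.pi ^ 2) - Real.pi ^ 2 - z.im + 1), le_max_left _ _, ?_, ?_⟩
        · simpa using hz
        · simp only [Complex.add_re, Complex.mul_re, Complex.I_re, Complex.ofReal_re, zero_mul,
            Complex.I_im, Complex.ofReal_im, mul_zero, sub_self, add_zero, Complex.add_im,
            Complex.mul_im, one_mul, zero_add]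
          have := le_max_right 0 (z.re ^ 2 / (4 * Real.pi ^ 2) - Real.pi ^ 2 - z.im + 1)
          linarith
      · rintro ⟨t, ht, hz1, hz2⟩
        simpa using hz1)
  obtain ⟨hdw, C, hC⟩ := h4 h hh
  refine ⟨_, h, 1, hs, hdw, hk, ⟨C, hC⟩, ?_⟩
  rintro ⟨C', hC'⟩
  set B := 4 * (|C| + |C'|) + 4 with hB
  have hB1 : 0 ≤ B := by positivity
  have ht : (1 : ℝ) ≤ Real.exp B := Real.one_le_exp hB1
  have h5 := hC (Real.exp B) ht
  have h6 := hC' (Real.exp B) ht
  rw [Real.log_exp] at h5 h6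
  have h7 := (abs_lt.1 h6).1
  have h8 := le_abs_self C
  have h9 := le_abs_self C'
  linarith

end Pool.Agent.R763.KO
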