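import Mathlib

/-!
# Tangential speed (MP_ab13d2): definitions and pieces
-/

set_option autoImplicit false

open Filter Topology Set

namespace Pool.Agent.R763.KO

/-- the open unit disc -/
abbrev D : Set ℂ := Metric.ball (0 : ℂ) 1

/-- hyperbolic distance of the unit disc -/
noncomputable def omega (z w : ℂ) : ℝ :=
  (1 / 2) * Real.log ((1 + ‖(z - w) / (1 - (starRingEnd ℂ) z * w)‖) /
    (1 - ‖(z - w) / (1 - (starRingEnd ℂ) z * w)‖))

/-- non-elliptic semigroups of holomorphic self-maps of the disc -/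
structure IsSemigroup (φ : ℝ → ℂ → ℂ) : Prop where
  maps : ∀ t, 0 ≤ t → MapsTo (φ t) D D
  holo : ∀ t, 0 ≤ t → DifferentiableOn ℂ (φ t) D
  zero : ∀ z ∈ D, φ 0 z = z
  add : ∀ s t, 0 ≤ s → 0 ≤ t → ∀ z ∈ D, φ (t + s) z = φ t (φ s z)
  cont : ∀ t₀, 0 ≤ t₀ → TendstoLocallyUniformlyOn φ (φ t₀) (𝓝[Ici 0] t₀) D
  nofix : ∀ t, 0 < t → ∀ z ∈ D, φ t z ≠ z

/-- `τ` is the Denjoy-Wolff point -/
def IsDW (φ : ℝ → ℂ → ℂ) (τ : ℂ) : Prop :=
  ‖τ‖ = 1 ∧ TendstoLocallyUniformlyOn φ (fun _ => τ) atTop D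

/-- `h` is a Koenigs function and the semigroup is parabolic of positive hyperbolic step: the
union of the domains `h(D) - i t` is the right half-plane -/
structure IsKoenigs (φ : ℝ → ℂ → ℂ) (h : ℂ → ℂ) : Prop where
  holo : DifferentiableOn ℂ h D
  inj : InjOn h D
  eq : ∀ t, 0 ≤ t → ∀ z ∈ D, h (φ t z) = h z + Complex.I * t
  half : (⋃ t ∈ Ici (0 : ℝ), (fun w => w - Complex.I * t) '' (h '' D)) = {w : ℂ | 0 < w.re}

/-- tangential speed: the hyperbolic distance from `φ_t(0)` to the diameter `(-1,1) τ` -/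
noncomputable def vT (φ : ℝ → ℂ → ℂ) (τ : ℂ) (t : ℝ) : ℝ :=
  ⨅ r : Ioo (-1 : ℝ) 1, omega ((r.1 : ℂ) * τ) (φ t 0)

/-! ### the example -/

/-- half of the inside of a parabola -/
def Om : Set ℂ := {z : ℂ | 0 < z.re ∧ z.re ^ 2 / (4 * Real.pi ^ 2) - Real.pi ^ 2 < z.im}

/-- `cosh √(-i z)` -/
noncomputable def E (z : ℂ) : ℂ := Complex.cosh ((-Complex.I * z) ^ ((1 : ℂ) / 2))

/-- the conformal map `Om → D` -/
noncomputable def G (z : ℂ) : ℂ := (E z + Complex.I) / (E z - Complex.I)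

/-- KO-1: `E` is a holomorphic bijection of `Om` onto the lower half-plane -/
def S1 : Prop := BijOn E Om {w : ℂ | w.im < 0} ∧ DifferentiableOn ℂ E Om ∧ ∀ z ∈ Om, deriv E z ≠ 0

/-- KO-2: `G` is a holomorphic bijection of `Om` onto the disc -/
def S2 : Prop := BijOn G Om D ∧ DifferentiableOn ℂ G Om ∧ ∀ z ∈ Om, deriv G z ≠ 0

/-- KO-3: abstract construction of the semigroup -/
def S3 : Prop := ∀ (U : Set ℂ) (g : ℂ → ℂ), IsOpen U → BijOn g U D → DifferentiableOn ℂ g U →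
  (∀ z ∈ U, deriv g z ≠ 0) → (∀ z ∈ U, ∀ t : ℝ, 0 ≤ t → z + Complex.I * t ∈ U) →
  (∀ z : ℂ, 0 < z.re ↔ ∃ t : ℝ, 0 ≤ t ∧ z + Complex.I * t ∈ U) →
  ∃ h : ℂ → ℂ, (∀ w ∈ D, h w ∈ U ∧ g (h w) = w) ∧
    IsSemigroup (fun t w => g (h w + Complex.I * t)) ∧
    IsKoenigs (fun t w => g (h w + Complex.I * t)) h

/-- KO-4: convergence to `1` and the estimate of the tangential speed -/
def S4 : Prop := ∀ h : ℂ → ℂ, (∀ w ∈ D, h w ∈ Om ∧ G (h w) = w) →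
  IsDW (fun t w => G (h w + Complex.I * t)) 1 ∧
  ∃ C : ℝ, ∀ t : ℝ, 1 ≤ t →
    vT (fun t w => G (h w + Complex.I * t)) 1 t ≤ (1 / 4) * Real.log t + C

end Pool.Agent.R763.KO
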