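import Mathlib
import Pool.Agent.R763.KO.Stm

/-!
Project KO, piece KO-1 (by helper734): `cosh √(-i z)` is a holomorphic bijection of `Om` onto the
lower half-plane.
-/

set_option autoImplicit false

open Filter Topology Set

namespace Pool.Agent.R763.KO.KO1

lemma cosh_re_im (a b : ℝ) : (Complex.cosh (a + b * Complex.I)).re = Real.cosh a * Real.cos b ∧
    (Complex.cosh (a + b * Complex.I)).im = Real.sinh a * Real.sin b := by
  rw [Complex.cosh_add, Complex.cosh_mul_I, Complex.sinh_mul_I]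
  have h1 : Complex.cosh (a : ℂ) = (Real.cosh a : ℂ) := by simp
  have h2 : Complex.sinh (a : ℂ) = (Real.sinh a : ℂ) := by simp
  have h3 : Complex.cos (b : ℂ) = (Real.cos b : ℂ) := by simp
  have h4 : Complex.sin (b : ℂ) = (Real.sin b : ℂ) := by simp
  rw [h1, h2, h3, h4]
  constructor
  · simp only [Complex.add_re, Complex.mul_re, Complex.ofReal_re, Complex.ofReal_im, Complex.I_re,
      Complex.I_im, Complex.mul_im]
    ring
  · simp only [Complex.add_im, Complex.mul_re, Complex.ofReal_re, Complex.ofReal_im, Complex.I_re,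
      Complex.I_im, Complex.mul_im]
    ring

lemma cosh_ri (s : ℂ) : (Complex.cosh s).re = Real.cosh s.re * Real.cos s.im ∧
    (Complex.cosh s).im = Real.sinh s.re * Real.sin s.im := by
  have := cosh_re_im s.re s.im
  rwa [Complex.re_add_im] at this

/-- the half strip -/
def St : Set ℂ := {s : ℂ | 0 < s.re ∧ -Real.pi < s.im ∧ s.im < 0}

lemma cosh_maps {s : ℂ} (hs : s ∈ St) : (Complex.cosh s).im < 0 := by
  obtain ⟨h1, h2, h3⟩ := hs
  rw [(cosh_ri s).2]
  exact mul_neg_of_pos_of_neg (Real.sinh_pos_iff.2 h1) (Real.sin_neg_of_neg_of_neg_pi_lt h3 h2)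

lemma cosh_inj {s s' : ℂ} (hs : s ∈ St) (hs' : s' ∈ St) (h : Complex.cosh s = Complex.cosh s') :
    s = s' := by
  obtain ⟨h1, h2, h3⟩ := hs
  obtain ⟨h1', h2', h3'⟩ := hs'
  rw [← Complex.cos_mul_I, ← Complex.cos_mul_I, Complex.cos_eq_cos_iff] at h
  obtain ⟨k, hk | hk⟩ := h
  · have hre := congrArg Complex.re hk
    have him := congrArg Complex.im hk
    simp at hre him
    have hk0 : k = 0 := by
      have hpi := Real.pi_pos
      have hlt : (k : ℝ) < 1 := by
        by_contra hcon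
        push Not at hcon
        nlinarith
      have hgt : (-1 : ℝ) < k := by
        by_contra hcon
        push Not at hcon
        nlinarith
      have a1 : k < 1 := by exact_mod_cast hlt
      have a2 : -1 < k := by exact_mod_cast hgt
      omega
    rw [hk0] at hre
    simp at hre
    exact Complex.ext him.symm hre.symm
  · have him := congrArg Complex.im hk
    simp at him
    linarith

lemma cosh_surj {ζ : ℂ} (hζ : ζ.im < 0) : ∃ s ∈ St, Complex.cosh s = ζ := by
  obtain ⟨u, hu⟩ := Complex.cos_surjective ζ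
  have h0 : Complex.cosh (-Complex.I * u) = ζ := by
    rw [← Complex.cos_mul_I, ← hu]
    congr 1
    rw [show -Complex.I * u * Complex.I = -(Complex.I * Complex.I) * u by ring, Complex.I_mul_I]
    ring
  -- normalise the real part
  have h1 : ∃ s : ℂ, 0 < s.re ∧ Complex.cosh s = ζ := by
    rcases lt_trichotomy (-Complex.I * u).re 0 with h | h | h
    · exact ⟨-(-Complex.I * u), by rw [Complex.neg_re]; linarith, by rw [Complex.cosh_neg, h0]⟩
    · exfalso
      have := (cosh_ri (-Complex.I * u)).2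
      rw [h0, h, Real.sinh_zero, zero_mul] at this
      linarith
    · exact ⟨_, h, h0⟩
  obtain ⟨s, hs, hsζ⟩ := h1
  have hre := (cosh_ri s).1
  have him := (cosh_ri s).2
  rw [hsζ] at hre him
  have hsh : 0 < Real.sinh s.re := Real.sinh_pos_iff.2 hs
  have hsin : Real.sin s.im < 0 := by
    by_contra hcon
    push Not at hcon
    have := mul_nonneg hsh.le hcon
    linarith
  set b : ℝ := -Real.arccos (Real.cos s.im) with hb
  have hcosb : Real.cos b = Real.cos s.im := by
    rw [hb, Real.cos_neg, Real.cos_arccos (Real.neg_one_le_cos _) (Real.cos_le_one _)]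
  have hsinb : Real.sin b = Real.sin s.im := by
    rw [hb, Real.sin_neg, Real.sin_arccos]
    have : Real.sqrt (1 - Real.cos s.im ^ 2) = - Real.sin s.im := by
      rw [show 1 - Real.cos s.im ^ 2 = (- Real.sin s.im) ^ 2 by
        have := Real.sin_sq_add_cos_sq s.im; nlinarith]
      exact Real.sqrt_sq (by linarith)
    rw [this]; ring
  have hb0 : b ≤ 0 := by rw [hb]; linarith [Real.arccos_nonneg (Real.cos s.im)]
  have hbpi : -Real.pi ≤ b := by rw [hb]; linarith [Real.arccos_le_pi (Real.cos s.im)]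
  refine ⟨(s.re : ℂ) + (b : ℂ) * Complex.I, ⟨?_, ?_, ?_⟩, ?_⟩
  · simpa using hs
  · have : (((s.re : ℂ) + (b : ℂ) * Complex.I)).im = b := by simp
    rw [this]
    refine lt_of_le_of_ne hbpi ?_
    intro h
    rw [← h, Real.sin_neg, Real.sin_pi] at hsinb
    linarith
  · have : (((s.re : ℂ) + (b : ℂ) * Complex.I)).im = b := by simp
    rw [this]
    refine lt_of_le_of_ne hb0 ?_
    intro h
    rw [h, Real.sin_zero] at hsinb
    linarith
  · apply Complex.ext
    · rw [(cosh_re_im s.re b).1, hcosb, hre]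
    · rw [(cosh_re_im s.re b).2, hsinb, him]

lemma cpow_sq (W : ℂ) : (W ^ ((1 : ℂ) / 2)) ^ 2 = W := by
  have h : ((1 : ℂ) / 2) = ((2 : ℕ) : ℂ)⁻¹ := by norm_num
  rw [h]
  exact Complex.cpow_nat_inv_pow W (by norm_num)

lemma neg_I_mul_im (z : ℂ) : (-Complex.I * z).im = -z.re := by simp
lemma neg_I_mul_re (z : ℂ) : (-Complex.I * z).re = z.im := by simp

lemma sqrt_mem {z : ℂ} (hz : z ∈ Om) : (-Complex.I * z) ^ ((1 : ℂ) / 2) ∈ St := by
  obtain ⟨h1, h2⟩ := hz
  set W : ℂ := -Complex.I * z with hW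
  have hWim : W.im < 0 := by rw [hW, neg_I_mul_im]; linarith
  have hW0 : W ≠ 0 := by
    intro h; rw [h] at hWim; simp at hWim
  have harg1 : Complex.arg W < 0 := Complex.arg_neg_iff.2 hWim
  have harg2 : -Real.pi < Complex.arg W := Complex.neg_pi_lt_arg W
  have hs : W ^ ((1 : ℂ) / 2) = Complex.exp (Complex.log W * (1 / 2)) :=
    Complex.cpow_def_of_ne_zero hW0 _
  have him : (Complex.log W * (1 / 2)).im = Complex.arg W / 2 := by
    have : (Complex.log W * (1 / 2)) = ((1 / 2 : ℝ) : ℂ) * Complex.log W := by push_cast; ring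
    rw [this, Complex.im_ofReal_mul, Complex.log_im]; ring
  have hre : 0 < (W ^ ((1 : ℂ) / 2)).re := by
    rw [hs, Complex.exp_re, him]
    apply mul_pos (Real.exp_pos _)
    exact Real.cos_pos_of_mem_Ioo ⟨by linarith, by linarith [Real.pi_pos]⟩
  have him' : (W ^ ((1 : ℂ) / 2)).im < 0 := by
    rw [hs, Complex.exp_im, him]
    apply mul_neg_of_pos_of_neg (Real.exp_pos _)
    exact Real.sin_neg_of_neg_of_neg_pi_lt (by linarith) (by linarith [Real.pi_pos])
  refine ⟨hre, ?_, him'⟩
  have hsq := cpow_sq W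
  set s : ℂ := W ^ ((1 : ℂ) / 2) with hsdef
  have e1 : s.re ^ 2 - s.im ^ 2 = W.re := by
    rw [← hsq, sq s, Complex.mul_re]; ring
  have e2 : 2 * (s.re * s.im) = W.im := by
    rw [← hsq, sq s, Complex.mul_im]; ring
  rw [hW, neg_I_mul_re] at e1
  rw [hW, neg_I_mul_im] at e2
  have hpi := Real.pi_pos
  have hpi2 : 0 < Real.pi ^ 2 := by positivity
  have key : z.re ^ 2 < (z.im + Real.pi ^ 2) * (4 * Real.pi ^ 2) := by
    have h3 : z.re ^ 2 / (4 * Real.pi ^ 2) < z.im + Real.pi ^ 2 := by linarith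
    rwa [div_lt_iff₀ (by positivity)] at h3
  have hz1 : z.re = -(2 * (s.re * s.im)) := by linarith
  rw [hz1, ← e1] at key
  have key2 : (s.re ^ 2 + Real.pi ^ 2) * (s.im ^ 2 - Real.pi ^ 2) < 0 := by nlinarith
  have key3 : s.im ^ 2 - Real.pi ^ 2 < 0 := by
    by_contra hcon
    push Not at hcon
    have : 0 ≤ (s.re ^ 2 + Real.pi ^ 2) * (s.im ^ 2 - Real.pi ^ 2) :=
      mul_nonneg (by positivity) hcon
    linarith
  nlinarith

lemma sq_mem {s : ℂ} (hs : s ∈ St) : Complex.I * s ^ 2 ∈ Om ∧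
    (-Complex.I * (Complex.I * s ^ 2)) ^ ((1 : ℂ) / 2) = s := by
  obtain ⟨h1, h2, h3⟩ := hs
  have hpi := Real.pi_pos
  constructor
  · have e1 : (Complex.I * s ^ 2).re = -(2 * (s.re * s.im)) := by
      rw [sq, Complex.mul_re, Complex.mul_im]; simp; ring
    have e2 : (Complex.I * s ^ 2).im = s.re ^ 2 - s.im ^ 2 := by
      rw [sq, Complex.mul_im, Complex.mul_re]; simp; ring
    refine ⟨?_, ?_⟩
    · rw [e1]; nlinarith [mul_pos h1 (neg_pos.2 h3)]
    · rw [e1, e2]
      have h4 : s.im ^ 2 < Real.pi ^ 2 := by nlinarith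
      have h5 : (s.re ^ 2 + Real.pi ^ 2) * (s.im ^ 2 - Real.pi ^ 2) < 0 :=
        mul_neg_of_pos_of_neg (by positivity) (by linarith)
      have h6 : (-(2 * (s.re * s.im))) ^ 2 / (4 * Real.pi ^ 2) <
          s.re ^ 2 - s.im ^ 2 + Real.pi ^ 2 := by
        rw [div_lt_iff₀ (by positivity)]
        nlinarith
      linarith
  · have h : -Complex.I * (Complex.I * s ^ 2) = s ^ 2 := by
      rw [show -Complex.I * (Complex.I * s ^ 2) = -(Complex.I * Complex.I) * s ^ 2 by ring,
        Complex.I_mul_I]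
      ring
    rw [h]
    have h' : ((1 : ℂ) / 2) = 2⁻¹ := by norm_num
    rw [h']
    exact Complex.sq_cpow_two_inv h1

lemma hasDeriv {z : ℂ} (hz : z ∈ Om) : HasDerivAt E
    (Complex.sinh ((-Complex.I * z) ^ ((1 : ℂ) / 2)) *
      ((1 : ℂ) / 2 * (-Complex.I * z) ^ ((1 : ℂ) / 2 - 1) * (-Complex.I * 1))) z := by
  have h1 : HasDerivAt (fun z : ℂ => -Complex.I * z) (-Complex.I * 1) z :=
    (hasDerivAt_id z).const_mul _
  have hsl : -Complex.I * z ∈ Complex.slitPlane := by
    rw [Complex.mem_slitPlane_iff]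
    right
    rw [neg_I_mul_im]
    have := hz.1
    linarith
  exact (h1.cpow_const hsl).ccosh

theorem main : S1 := by
  refine ⟨⟨?_, ?_, ?_⟩, ?_, ?_⟩
  · intro z hz
    exact cosh_maps (sqrt_mem hz)
  · intro z hz z' hz' h
    have h1 := cosh_inj (sqrt_mem hz) (sqrt_mem hz') h
    have h2 : -Complex.I * z = -Complex.I * z' := by
      rw [← cpow_sq (-Complex.I * z), ← cpow_sq (-Complex.I * z'), h1]
    exact mul_left_cancel₀ (neg_ne_zero.2 Complex.I_ne_zero) h2
  · intro ζ hζ
    obtain ⟨s, hs, hsζ⟩ := cosh_surj hζ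
    refine ⟨Complex.I * s ^ 2, (sq_mem hs).1, ?_⟩
    show Complex.cosh _ = ζ
    rw [(sq_mem hs).2, hsζ]
  · intro z hz
    exact (hasDeriv hz).differentiableAt.differentiableWithinAt
  · intro z hz
    rw [(hasDeriv hz).deriv]
    have hs := sqrt_mem hz
    have him := cosh_maps hs
    have hsinh : Complex.sinh ((-Complex.I * z) ^ ((1 : ℂ) / 2)) ≠ 0 := by
      intro h
      have h2 := Complex.cosh_sq ((-Complex.I * z) ^ ((1 : ℂ) / 2))
      rw [h] at h2
      have h3 : Complex.cosh ((-Complex.I * z) ^ ((1 : ℂ) / 2)) = 1 ∨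
          Complex.cosh ((-Complex.I * z) ^ ((1 : ℂ) / 2)) = -1 := by
        have h4 : (Complex.cosh ((-Complex.I * z) ^ ((1 : ℂ) / 2)) - 1) *
            (Complex.cosh ((-Complex.I * z) ^ ((1 : ℂ) / 2)) + 1) = 0 := by
          linear_combination h2
        rcases mul_eq_zero.1 h4 with h5 | h5
        · left; exact sub_eq_zero.1 h5
        · right; exact eq_neg_of_add_eq_zero_left h5
      rcases h3 with h3 | h3 <;> rw [h3] at him <;> simp at him
    have hW : -Complex.I * z ≠ 0 := by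
      intro h
      have := neg_I_mul_im z
      rw [h] at this
      have h1 := hz.1
      simp at this
      linarith
    refine mul_ne_zero hsinh (mul_ne_zero (mul_ne_zero (by norm_num) ?_) ?_)
    · rw [Complex.cpow_def_of_ne_zero hW]
      exact Complex.exp_ne_zero _
    · simp

end Pool.Agent.R763.KO.KO1
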