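import Pool.Agent.R763.KO.Stm

/-!
# KO-2: the Möbius transformation from the lower half-plane to the disc
-/

set_option autoImplicit false

open Filter Topology Set

namespace Pool.Agent.R763.KO.KO2

/-- the Möbius map of the lower half-plane onto the disc -/
noncomputable def M (w : ℂ) : ℂ := (w + Complex.I) / (w - Complex.I)

lemma sub_ne {w : ℂ} (hw : w.im < 0) : w - Complex.I ≠ 0 := by
  intro h
  have := congrArg Complex.im h
  simp at this
  linarith

lemma M_maps : MapsTo M {w : ℂ | w.im < 0} D := by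
  intro w hw
  have hw' : w.im < 0 := hw
  rw [mem_ball_zero_iff, M, norm_div, div_lt_one (norm_pos_iff.mpr (sub_ne hw'))]
  refine lt_of_pow_lt_pow_left₀ 2 (norm_nonneg _) ?_
  rw [← Complex.normSq_eq_norm_sq, ← Complex.normSq_eq_norm_sq, Complex.normSq_apply,
    Complex.normSq_apply]
  simp only [Complex.add_re, Complex.add_im, Complex.sub_re, Complex.sub_im, Complex.I_re,
    Complex.I_im]
  nlinarith

lemma M_inj : InjOn M {w : ℂ | w.im < 0} := by
  intro w hw z hz h
  have h1 := sub_ne (show w.im < 0 from hw)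
  have h2 := sub_ne (show z.im < 0 from hz)
  rw [M, M, div_eq_div_iff h1 h2] at h
  have h3 : (2 * Complex.I) * (z - w) = 0 := by linear_combination h
  have h4 : (2 * Complex.I : ℂ) ≠ 0 := by simp
  have h5 := (mul_eq_zero.mp h3).resolve_left h4
  exact (sub_eq_zero.mp h5).symm

lemma M_surj : SurjOn M {w : ℂ | w.im < 0} D := by
  intro u hu
  rw [mem_ball_zero_iff] at hu
  have h1 : u - 1 ≠ 0 := by
    intro h
    rw [sub_eq_zero.mp h, norm_one] at hu
    exact lt_irrefl _ hu
  refine ⟨Complex.I * (u + 1) / (u - 1), ?_, ?_⟩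
  · have h2 : 0 < Complex.normSq (u - 1) := Complex.normSq_pos.mpr h1
    have h3 : Complex.normSq u < 1 := by
      rw [Complex.normSq_eq_norm_sq]
      nlinarith [norm_nonneg u]
    rw [Complex.normSq_apply] at h3
    show (Complex.I * (u + 1) / (u - 1)).im < 0
    rw [Complex.div_im]
    simp only [Complex.mul_re, Complex.mul_im, Complex.add_re, Complex.add_im, Complex.sub_re,
      Complex.sub_im, Complex.I_re, Complex.I_im, Complex.one_re, Complex.one_im]
    rw [← sub_div]
    refine div_neg_of_neg_of_pos ?_ h2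
    nlinarith
  · rw [M]
    have h4 : Complex.I * (u + 1) / (u - 1) - Complex.I = 2 * Complex.I / (u - 1) := by
      field_simp
      ring
    have h5 : Complex.I * (u + 1) / (u - 1) + Complex.I = 2 * Complex.I * u / (u - 1) := by
      field_simp
      ring
    rw [h4, h5]
    have h6 : (2 * Complex.I : ℂ) ≠ 0 := by simp
    field_simp

lemma M_bij : BijOn M {w : ℂ | w.im < 0} D := ⟨M_maps, M_inj, M_surj⟩

lemma M_deriv {w : ℂ} (hw : w.im < 0) :
    HasDerivAt M (-2 * Complex.I / (w - Complex.I) ^ 2) w := by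
  have h1 := sub_ne hw
  have h2 : HasDerivAt (fun w : ℂ => w + Complex.I) 1 w := (hasDerivAt_id w).add_const _
  have h3 : HasDerivAt (fun w : ℂ => w - Complex.I) 1 w := (hasDerivAt_id w).sub_const _
  have h4 := h2.div h3 h1
  refine h4.congr_deriv ?_
  congr 1
  ring

/-- `G = M ∘ E` -/
lemma G_eq : G = M ∘ E := rfl

lemma isOpen_Om : IsOpen Om := by
  have h1 : IsOpen {z : ℂ | 0 < z.re} := isOpen_lt continuous_const Complex.continuous_re
  have h2 : IsOpen {z : ℂ | z.re ^ 2 / (4 * Real.pi ^ 2) - Real.pi ^ 2 < z.im} :=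
    isOpen_lt (((Complex.continuous_re.pow 2).div_const _).sub continuous_const)
      Complex.continuous_im
  exact h1.inter h2

/-- KO-2 -/
theorem t2 (h : S1) : S2 := by
  obtain ⟨hb, hd, hn⟩ := h
  have key : ∀ z ∈ Om, HasDerivAt G (-2 * Complex.I / (E z - Complex.I) ^ 2 * deriv E z) z := by
    intro z hz
    have h1 : HasDerivAt E (deriv E z) z :=
      ((hd z hz).differentiableAt (isOpen_Om.mem_nhds hz)).hasDerivAt
    exact HasDerivAt.comp z (M_deriv (hb.mapsTo hz)) h1
  refine ⟨?_, fun z hz => (key z hz).differentiableAt.differentiableWithinAt, fun z hz => ?_⟩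
  · rw [G_eq]
    exact M_bij.comp hb
  · rw [(key z hz).deriv]
    refine mul_ne_zero (div_ne_zero (by simp) (pow_ne_zero 2 (sub_ne (hb.mapsTo hz)))) (hn z hz)

end Pool.Agent.R763.KO.KO2
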