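import Pool.Agent.R763.KO.Stm

/-!
# KO-4: convergence to `1` and the estimate of the tangential speed
-/

set_option autoImplicit false

open Filter Topology Set

namespace Pool.Agent.R763.KO.KO4

/-- the square root on `Om` -/
theorem sqrt_data (z : ℂ) (hz : z ∈ Om) : ∃ a b : ℝ, 0 < a ∧ -Real.pi < b ∧ b < 0 ∧
    a ^ 2 - b ^ 2 = z.im ∧ 2 * a * b = -z.re ∧ (E z).re = Real.cosh a * Real.cos b ∧
    (E z).im = Real.sinh a * Real.sin b := by
  obtain ⟨h1, h2⟩ := hz
  have hWre : (-Complex.I * z).re = z.im := by simp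
  have hWim : (-Complex.I * z).im = -z.re := by simp
  set W : ℂ := -Complex.I * z with hW
  have hW0 : W ≠ 0 := by
    intro h
    rw [h, Complex.zero_im] at hWim
    linarith
  set s : ℂ := W ^ ((1 : ℂ) / 2) with hs
  have hs2 : s * s = W := by
    rw [hs, ← Complex.cpow_add _ _ hW0]; norm_num
  have harg : Complex.arg W < 0 := Complex.arg_neg_iff.2 (by rw [hWim]; linarith)
  have harg' : -Real.pi < Complex.arg W := Complex.neg_pi_lt_arg W
  have hre : 0 < s.re := by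
    rw [hs, Complex.cpow_def_of_ne_zero hW0, Complex.exp_re]
    have him : (Complex.log W * (1 / 2)).im = Complex.arg W / 2 := by
      have : Complex.log W * (1 / 2) = ((1 / 2 : ℝ) : ℂ) * Complex.log W := by push_cast; ring
      rw [this, Complex.im_ofReal_mul, Complex.log_im]; ring
    rw [him]
    apply mul_pos (Real.exp_pos _)
    apply Real.cos_pos_of_mem_Ioo
    constructor <;> linarith
  have e1 : s.re * s.re - s.im * s.im = z.im := by
    rw [← hWre, ← hs2, Complex.mul_re]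
  have e2 : s.re * s.im + s.im * s.re = -z.re := by
    rw [← hWim, ← hs2, Complex.mul_im]
  have hb : s.im < 0 := by
    by_contra hb
    have : 0 ≤ s.re * s.im := mul_nonneg hre.le (not_lt.1 hb)
    linarith
  have hpi := Real.pi_pos
  have hb2 : s.im ^ 2 < Real.pi ^ 2 := by
    have h3 : z.re ^ 2 < 4 * Real.pi ^ 2 * (z.im + Real.pi ^ 2) := by
      have h4 : z.re ^ 2 / (4 * Real.pi ^ 2) < z.im + Real.pi ^ 2 := by linarith
      rw [div_lt_iff₀ (by positivity)] at h4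
      linarith
    have h5 : z.re = -(2 * s.re * s.im) := by linarith
    have h6 : 0 < (Real.pi ^ 2 + s.re ^ 2) * (Real.pi ^ 2 - s.im ^ 2) := by
      rw [h5, ← e1] at h3
      nlinarith
    have h7 : 0 < Real.pi ^ 2 + s.re ^ 2 := by positivity
    have := (mul_pos_iff_of_pos_left h7).1 h6
    linarith
  refine ⟨s.re, s.im, hre, ?_, hb, by rw [← e1]; ring, by linarith, ?_, ?_⟩
  · nlinarith
  all_goals
    have hE : E z = ((Real.cosh s.re * Real.cos s.im : ℝ) : ℂ) +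
        ((Real.sinh s.re * Real.sin s.im : ℝ) : ℂ) * Complex.I := by
      have : E z = Complex.cosh s := rfl
      rw [this]
      conv_lhs => rw [← Complex.re_add_im s]
      rw [Complex.cosh_add, Complex.cosh_mul_I, Complex.sinh_mul_I]
      push_cast
      ring
    rw [hE]
    simp only [Complex.add_re, Complex.add_im, Complex.mul_re, Complex.mul_im, Complex.ofReal_re,
      Complex.ofReal_im, Complex.I_re, Complex.I_im, mul_zero, zero_mul, mul_one, sub_zero,
      add_zero, zero_add]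

theorem normSq_E (z : ℂ) (a b : ℝ) (h1 : (E z).re = Real.cosh a * Real.cos b)
    (h2 : (E z).im = Real.sinh a * Real.sin b) :
    ‖E z‖ ^ 2 = Real.sinh a ^ 2 + Real.cos b ^ 2 := by
  rw [← Complex.normSq_eq_norm_sq, Complex.normSq_apply, h1, h2]
  have e1 := Real.cosh_sq a
  have e2 := Real.sin_sq_add_cos_sq b
  have : Real.cosh a * Real.cos b * (Real.cosh a * Real.cos b) +
      Real.sinh a * Real.sin b * (Real.sinh a * Real.sin b) =
      Real.cosh a ^ 2 * Real.cos b ^ 2 + Real.sinh a ^ 2 * Real.sin b ^ 2 := by ring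
  rw [this, e1]
  nlinarith

theorem le_norm_E (z : ℂ) (a b : ℝ) (ha : 0 < a) (h1 : (E z).re = Real.cosh a * Real.cos b)
    (h2 : (E z).im = Real.sinh a * Real.sin b) : a ≤ ‖E z‖ := by
  have h3 := normSq_E z a b h1 h2
  have h4 : a ≤ Real.sinh a := (Real.self_le_sinh_iff).2 ha.le
  have h5 : Real.sinh a ≤ ‖E z‖ := by
    apply le_of_sq_le_sq _ (norm_nonneg _)
    nlinarith [sq_nonneg (Real.cos b)]
  linarith

theorem norm_E_le (z : ℂ) (a b : ℝ) (h1 : (E z).re = Real.cosh a * Real.cos b)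
    (h2 : (E z).im = Real.sinh a * Real.sin b) : ‖E z‖ ≤ Real.cosh a := by
  have h3 := normSq_E z a b h1 h2
  apply le_of_sq_le_sq _ (Real.cosh_pos a).le
  rw [h3, Real.cosh_sq]
  nlinarith [Real.cos_sq_le_one b]

theorem mem_Om_add (z : ℂ) (hz : z ∈ Om) (t : ℝ) (ht : 0 ≤ t) : z + Complex.I * t ∈ Om := by
  obtain ⟨h1, h2⟩ := hz
  constructor
  · simpa using h1
  · simp only [Complex.add_re, Complex.mul_re, Complex.I_re, Complex.ofReal_re, Complex.I_im,
      Complex.ofReal_im, Complex.add_im, Complex.mul_im]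
    norm_num
    linarith

theorem omega_nonneg (z w : ℂ) : 0 ≤ omega z w := by
  unfold omega
  set T := ‖(z - w) / (1 - (starRingEnd ℂ) z * w)‖ with hT
  have hT0 : 0 ≤ T := norm_nonneg _
  rcases eq_or_ne T 1 with h | h
  · rw [h]; norm_num
  · apply mul_nonneg (by norm_num)
    rw [← Real.log_abs]
    apply Real.log_nonneg
    rw [abs_div, le_div_iff₀ (abs_pos.2 (sub_ne_zero.2 (Ne.symm h))), one_mul,
      abs_of_nonneg (by linarith : (0 : ℝ) ≤ 1 + T)]
    rw [abs_le]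
    constructor <;> linarith

theorem vT_le (φ : ℝ → ℂ → ℂ) (t : ℝ) (r : ℝ) (h1 : -1 < r) (h2 : r < 1) :
    vT φ 1 t ≤ omega ((r : ℂ) * 1) (φ t 0) := by
  unfold vT
  have hb : BddBelow (Set.range fun r : Ioo (-1 : ℝ) 1 => omega ((r.1 : ℂ) * 1) (φ t 0)) := by
    refine ⟨0, ?_⟩
    rintro x ⟨r, rfl⟩
    exact omega_nonneg _ _
  exact ciInf_le hb ⟨r, h1, h2⟩

/-- hyperbolic distance from the point `M(ζ)` to the real point `M(-i |ζ|)` -/
theorem omega_bound (ζ : ℂ) (hζ : ζ.im < 0) :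
    omega (((‖ζ‖ - 1) / (‖ζ‖ + 1) : ℝ) : ℂ) ((ζ + Complex.I) / (ζ - Complex.I)) ≤
      (1 / 2) * Real.log (4 * ‖ζ‖ / (-ζ.im)) := by
  have hζ0 : ζ ≠ 0 := by
    intro h; rw [h, Complex.zero_im] at hζ; exact lt_irrefl _ hζ
  set ρ : ℝ := ‖ζ‖ with hρ
  have hρ0 : 0 < ρ := norm_pos_iff.2 hζ0
  have hρsq : ζ.re * ζ.re + ζ.im * ζ.im = ρ * ρ := by
    have := Complex.normSq_eq_norm_sq ζ
    rw [Complex.normSq_apply] at this
    rw [this, hρ]; ring
  have hI : ζ - Complex.I ≠ 0 := by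
    intro h
    have := congrArg Complex.im h
    simp at this
    linarith
  have hρ1 : ((ρ : ℂ) + 1) ≠ 0 := by
    have : ((ρ + 1 : ℝ) : ℂ) ≠ 0 := by
      rw [Complex.ofReal_ne_zero]; linarith
    simpa using this
  have hd : ζ - (ρ : ℂ) * Complex.I ≠ 0 := by
    intro h
    have := congrArg Complex.im h
    simp at this
    linarith
  have hval : ((((ρ - 1) / (ρ + 1) : ℝ) : ℂ) - (ζ + Complex.I) / (ζ - Complex.I)) /
      (1 - (starRingEnd ℂ) (((ρ - 1) / (ρ + 1) : ℝ) : ℂ) * ((ζ + Complex.I) / (ζ - Complex.I))) =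
      -((ζ + ρ * Complex.I) / (ζ - ρ * Complex.I)) := by
    rw [Complex.conj_ofReal]
    push_cast
    have e1 : ((ρ : ℂ) - 1) / (ρ + 1) - (ζ + Complex.I) / (ζ - Complex.I) =
        -2 * (ζ + ρ * Complex.I) / ((ρ + 1) * (ζ - Complex.I)) := by
      field_simp
      ring
    have e2 : 1 - ((ρ : ℂ) - 1) / (ρ + 1) * ((ζ + Complex.I) / (ζ - Complex.I)) =
        2 * (ζ - ρ * Complex.I) / ((ρ + 1) * (ζ - Complex.I)) := by
      field_simp
      ring
    rw [e1, e2]
    field_simp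
  unfold omega
  rw [hval, norm_neg, norm_div]
  set A : ℝ := ‖ζ + ρ * Complex.I‖ with hA
  set B : ℝ := ‖ζ - ρ * Complex.I‖ with hB
  have hA2 : A ^ 2 = 2 * ρ * (ρ + ζ.im) := by
    rw [hA, ← Complex.normSq_eq_norm_sq, Complex.normSq_apply]
    simp
    nlinarith
  have hB2 : B ^ 2 = 2 * ρ * (ρ - ζ.im) := by
    rw [hB, ← Complex.normSq_eq_norm_sq, Complex.normSq_apply]
    simp
    nlinarith
  have hB0 : 0 < B := norm_pos_iff.2 hd
  have hA0 : 0 ≤ A := norm_nonneg _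
  have hAB : A < B := by
    apply lt_of_pow_lt_pow_left₀ 2 hB0.le
    rw [hA2, hB2]
    nlinarith
  have hquot : (1 + A / B) / (1 - A / B) = (B + A) / (B - A) := by
    field_simp
  rw [hquot]
  apply mul_le_mul_of_nonneg_left _ (by norm_num)
  apply Real.log_le_log
  · apply div_pos <;> linarith
  rw [div_le_div_iff₀ (by linarith) (by linarith)]
  -- (B+A) (-v) ≤ 4 ρ (B - A)
  have h5 : (B + A) * (B - A) = 4 * ρ * (-ζ.im) := by
    have : (B + A) * (B - A) = B ^ 2 - A ^ 2 := by ring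
    rw [this, hA2, hB2]; ring
  have h6 : (B + A) ^ 2 ≤ 4 * B ^ 2 := by nlinarith
  have h7 : -ζ.im ≤ ρ := by
    have := Complex.abs_im_le_norm ζ
    rw [abs_of_neg hζ] at this
    exact this
  have h8 : B ^ 2 ≤ 4 * ρ ^ 2 := by rw [hB2]; nlinarith
  have h9 : (B + A) * ((B + A) * (-ζ.im)) ≤ (B + A) * (4 * ρ * (B - A)) := by
    have e3 : (B + A) * (4 * ρ * (B - A)) = 4 * ρ * (4 * ρ * (-ζ.im)) := by rw [← h5]; ring
    rw [e3]
    have e4 : (B + A) * ((B + A) * (-ζ.im)) = (B + A) ^ 2 * (-ζ.im) := by ring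
    rw [e4]
    have : (B + A) ^ 2 ≤ 16 * ρ ^ 2 := by linarith
    nlinarith
  exact le_of_mul_le_mul_left h9 (by linarith)

theorem isDW (h : ℂ → ℂ) (hh : ∀ w ∈ D, h w ∈ Om ∧ G (h w) = w) :
    IsDW (fun t w => G (h w + Complex.I * t)) 1 := by
  refine ⟨by simp, ?_⟩
  apply TendstoUniformlyOn.tendstoLocallyUniformlyOn
  rw [Metric.tendstoUniformlyOn_iff]
  intro ε hε
  have hev : ∀ᶠ t : ℝ in atTop, Real.pi ^ 2 + (1 + 2 / ε + 1) ^ 2 < t :=
    Filter.eventually_gt_atTop _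
  filter_upwards [hev] with t ht w hw
  have ht0 : 0 ≤ t := by
    have : 0 ≤ Real.pi ^ 2 + (1 + 2 / ε + 1) ^ 2 := by positivity
    linarith
  have hmem := mem_Om_add (h w) (hh w hw).1 t ht0
  obtain ⟨a, b, ha, hb1, hb2, e1, e2, e3, e4⟩ := sqrt_data _ hmem
  have h5 := le_norm_E _ a b ha e3 e4
  have him : (h w + Complex.I * t).im = (h w).im + t := by simp
  have hlow : -Real.pi ^ 2 < (h w).im := by
    have := (hh w hw).1.2
    have h6 : 0 ≤ (h w).re ^ 2 / (4 * Real.pi ^ 2) := by positivity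
    linarith
  have ha2 : (1 + 2 / ε + 1) ^ 2 < a ^ 2 := by
    rw [him] at e1
    nlinarith [sq_nonneg b]
  have ha3 : 1 + 2 / ε + 1 < a := lt_of_pow_lt_pow_left₀ 2 ha.le ha2
  set Z := E (h w + Complex.I * t) with hZ
  have hZn : 1 + 2 / ε < ‖Z‖ - 1 := by linarith
  have hZI : ‖Z‖ - 1 ≤ ‖Z - Complex.I‖ := by
    have := norm_sub_norm_le Z Complex.I
    rwa [Complex.norm_I] at this
  have hεp : 0 < 2 / ε := by positivity
  have hpos : 0 < ‖Z - Complex.I‖ := by linarith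
  have hne : Z - Complex.I ≠ 0 := norm_pos_iff.1 hpos
  have hG : (1 : ℂ) - G (h w + Complex.I * t) = -(2 * Complex.I) / (Z - Complex.I) := by
    show (1 : ℂ) - (Z + Complex.I) / (Z - Complex.I) = _
    field_simp
    ring
  rw [dist_eq_norm]
  show ‖(1 : ℂ) - G (h w + Complex.I * t)‖ < ε
  rw [hG, norm_div, norm_neg, norm_mul, Complex.norm_I, mul_one, Complex.norm_ofNat,
    div_lt_iff₀ hpos]
  have : 2 / ε < ‖Z - Complex.I‖ := by linarith
  rw [div_lt_iff₀ hε] at this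
  linarith

theorem speed (h : ℂ → ℂ) (hh : ∀ w ∈ D, h w ∈ Om ∧ G (h w) = w) :
    ∃ C : ℝ, ∀ t : ℝ, 1 ≤ t →
      vT (fun t w => G (h w + Complex.I * t)) 1 t ≤ (1 / 4) * Real.log t + C := by
  have h0 : (0 : ℂ) ∈ D := by simp [D]
  obtain ⟨hmem0, -⟩ := hh 0 h0
  obtain ⟨a0, b0, ha0, hb01, hb02, p1, p2, -, -⟩ := sqrt_data _ hmem0
  have hx0 : 0 < (h 0).re := hmem0.1
  set x0 := (h 0).re with hx0d
  set y0 := (h 0).im with hy0d
  have hsin0 : 0 < Real.sin (-b0) := Real.sin_pos_of_pos_of_lt_pi (by linarith) (by linarith)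
  have hsinh0 : 0 < Real.sinh a0 := Real.sinh_pos_iff.2 ha0
  have hcosh0 : 0 < Real.cosh a0 := Real.cosh_pos a0
  set c1 : ℝ := Real.sin (-b0) / (-b0) with hc1
  set c2 : ℝ := Real.sinh a0 / Real.cosh a0 with hc2
  have hc1p : 0 < c1 := div_pos hsin0 (by linarith)
  have hc2p : 0 < c2 := div_pos hsinh0 hcosh0
  set K : ℝ := √(|y0| + 1 + Real.pi ^ 2) with hK
  have hKp : 0 < K := Real.sqrt_pos.2 (by positivity)
  refine ⟨(1 / 2) * Real.log (8 * K / (c1 * c2 * x0)), fun t ht => ?_⟩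
  have ht0 : 0 ≤ t := by linarith
  have hmem := mem_Om_add (h 0) hmem0 t ht0
  obtain ⟨a, b, ha, hb1, hb2, e1, e2, e3, e4⟩ := sqrt_data _ hmem
  have him : (h 0 + Complex.I * t).im = y0 + t := by simp [hy0d]
  have hre : (h 0 + Complex.I * t).re = x0 := by simp [hx0d]
  rw [him] at e1
  rw [hre] at e2
  -- monotonicity
  have haa : a0 ≤ a := by
    by_contra hlt
    have hlt : a < a0 := not_le.1 hlt
    have h1 : b ≤ b0 := by
      by_contra hbb
      have hbb : b0 < b := not_le.1 hbb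
      nlinarith
    nlinarith
  have hbb : -b ≤ -b0 := by
    by_contra hlt
    have hlt : b < b0 := by linarith [not_le.1 hlt]
    nlinarith
  -- sine
  have hsin : c1 * (-b) ≤ Real.sin (-b) := by
    have hconc := strictConcaveOn_sin_Icc.concaveOn
    have hq0 : 0 ≤ (-b) / (-b0) := div_nonneg (by linarith) (by linarith)
    have hq1 : (-b) / (-b0) ≤ 1 := by
      rw [div_le_one (by linarith)]; exact hbb
    have := hconc.2 (show (0 : ℝ) ∈ Icc 0 Real.pi from ⟨le_rfl, Real.pi_pos.le⟩)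
      (show (-b0) ∈ Icc 0 Real.pi from ⟨by linarith, by linarith⟩)
      (show 0 ≤ 1 - (-b) / (-b0) by linarith) hq0 (by ring)
    simp only [smul_eq_mul, Real.sin_zero, mul_zero, zero_add] at this
    have e5 : (-b) / (-b0) * (-b0) = -b := div_mul_cancel₀ _ (by linarith)
    rw [e5] at this
    calc c1 * (-b) = (-b) / (-b0) * Real.sin (-b0) := by rw [hc1]; ring
      _ ≤ _ := this
  have hsinh : c2 * Real.cosh a ≤ Real.sinh a := by
    have h1 : 0 ≤ Real.sinh (a - a0) := Real.sinh_nonneg_iff.2 (by linarith)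
    rw [Real.sinh_sub] at h1
    rw [hc2, div_mul_eq_mul_div, div_le_iff₀ hcosh0]
    linarith
  set ζ := E (h 0 + Complex.I * t) with hζ
  have hcosh : 0 < Real.cosh a := Real.cosh_pos a
  have hsb : 0 < Real.sin (-b) := lt_of_lt_of_le (mul_pos hc1p (by linarith)) hsin
  have hζim : -ζ.im = Real.sinh a * Real.sin (-b) := by
    rw [e4, Real.sin_neg]; ring
  have hζneg : ζ.im < 0 := by
    have : 0 < Real.sinh a * Real.sin (-b) := mul_pos (Real.sinh_pos_iff.2 ha) hsb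
    linarith
  have hnorm := norm_E_le _ a b e3 e4
  have hρ0 : 0 < ‖ζ‖ := lt_of_lt_of_le ha (le_norm_E _ a b ha e3 e4)
  have hv := vT_le (fun t w => G (h w + Complex.I * t)) t ((‖ζ‖ - 1) / (‖ζ‖ + 1))
    (by rw [lt_div_iff₀ (by linarith)]; linarith) (by rw [div_lt_one (by linarith)]; linarith)
  refine hv.trans ?_
  rw [mul_one]
  refine (omega_bound ζ hζneg).trans ?_
  have htp : 0 < t := by linarith
  have hst : 0 < √t := Real.sqrt_pos.2 htp
  have hlog : (1 / 4) * Real.log t + (1 / 2) * Real.log (8 * K / (c1 * c2 * x0)) =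
      (1 / 2) * Real.log (8 * K / (c1 * c2 * x0) * √t) := by
    rw [Real.log_mul (by positivity) hst.ne', Real.log_sqrt htp.le]
    ring
  rw [hlog]
  apply mul_le_mul_of_nonneg_left _ (by norm_num)
  apply Real.log_le_log
  · apply div_pos <;> linarith
  -- 4 ρ / (-Im ζ) ≤ (8 K / (c1 c2 x0)) √t
  have haK : a ≤ K * √t := by
    rw [hK, ← Real.sqrt_mul (by positivity)]
    apply Real.le_sqrt_of_sq_le
    have hb2' : b ^ 2 ≤ Real.pi ^ 2 := by
      apply sq_le_sq'
      · exact hb1.le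
      · linarith [Real.pi_pos]
    have hy : y0 ≤ |y0| := le_abs_self _
    have hy2 : 0 ≤ |y0| := abs_nonneg _
    have h11 : 0 ≤ |y0| * (t - 1) := mul_nonneg hy2 (sub_nonneg.2 ht)
    have h12 : 0 ≤ Real.pi ^ 2 * (t - 1) := mul_nonneg (sq_nonneg Real.pi) (sub_nonneg.2 ht)
    have h13 : (|y0| + 1 + Real.pi ^ 2) * t = |y0| * (t - 1) + |y0| + t +
        Real.pi ^ 2 * (t - 1) + Real.pi ^ 2 := by ring
    rw [h13]
    linarith
  have hkey : ‖ζ‖ * (c1 * c2 * x0) ≤ 2 * a * (-ζ.im) := by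
    rw [hζim]
    have hbx : (-b) * (2 * a) = x0 := by linarith
    have h1 : c2 * Real.cosh a * (c1 * (-b)) ≤ Real.sinh a * Real.sin (-b) :=
      mul_le_mul hsinh hsin (mul_nonneg hc1p.le (by linarith)) (Real.sinh_pos_iff.2 ha).le
    calc ‖ζ‖ * (c1 * c2 * x0) ≤ Real.cosh a * (c1 * c2 * x0) := by
          apply mul_le_mul_of_nonneg_right hnorm; positivity
      _ = 2 * a * (c2 * Real.cosh a * (c1 * (-b))) := by rw [← hbx]; ring
      _ ≤ 2 * a * (Real.sinh a * Real.sin (-b)) := by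
          apply mul_le_mul_of_nonneg_left h1; positivity
  have hcc : 0 < c1 * c2 * x0 := by positivity
  rw [div_mul_eq_mul_div, div_le_div_iff₀ (by linarith) hcc]
  have h10 : a * (-ζ.im) ≤ K * √t * (-ζ.im) := mul_le_mul_of_nonneg_right haK (by linarith)
  have h14 : 4 * ‖ζ‖ * (c1 * c2 * x0) = 4 * (‖ζ‖ * (c1 * c2 * x0)) := by ring
  have h15 : 8 * K * √t * (-ζ.im) = 8 * (K * √t * (-ζ.im)) := by ring
  rw [h14, h15]
  linarith

/-- KO-4 -/
theorem s4 : S4 := fun h hh => ⟨isDW h hh, speed h hh⟩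

end Pool.Agent.R763.KO.KO4
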