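import Pool.Agent.R763.KO.Stm

/-!
# Project KO, piece KO-3 (helper408): abstract Koenigs construction of a holomorphic semigroup
-/

set_option autoImplicit false

open Filter Topology Set

namespace Pool.Agent.R763.KO.S3

open Pool.Agent.R763.KO

theorem main (U : Set ℂ) (g : ℂ → ℂ) (hU : IsOpen U) (hg : BijOn g U D)
    (hgd : DifferentiableOn ℂ g U) (hg' : ∀ z ∈ U, deriv g z ≠ 0)
    (hUt : ∀ z ∈ U, ∀ t : ℝ, 0 ≤ t → z + Complex.I * t ∈ U)
    (hUh : ∀ z : ℂ, 0 < z.re ↔ ∃ t : ℝ, 0 ≤ t ∧ z + Complex.I * t ∈ U) :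
    ∃ h : ℂ → ℂ, (∀ w ∈ D, h w ∈ U ∧ g (h w) = w) ∧
    IsSemigroup (fun t w => g (h w + Complex.I * t)) ∧
    IsKoenigs (fun t w => g (h w + Complex.I * t)) h := by
  set h : ℂ → ℂ := Function.invFunOn g U with hh
  have h1 : ∀ w ∈ D, h w ∈ U := fun w hw => Function.invFunOn_mem (hg.surjOn hw)
  have h2 : ∀ w ∈ D, g (h w) = w := fun w hw => Function.invFunOn_eq (hg.surjOn hw)
  have h3 : ∀ u ∈ U, h (g u) = u := fun u hu =>
    hg.injOn (h1 _ (hg.mapsTo hu)) hu (h2 _ (hg.mapsTo hu))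
  have hDo : IsOpen D := Metric.isOpen_ball
  -- `h` is holomorphic
  have hhd : ∀ w ∈ D, DifferentiableAt ℂ h w := by
    intro w hw
    have hz : h w ∈ U := h1 w hw
    have hs : HasStrictDerivAt g (deriv g (h w)) (h w) :=
      ((hgd.analyticAt (hU.mem_nhds hz))).hasStrictDerivAt
    have h4 := hs.to_local_left_inverse (g := h) (hg' _ hz) (by
      filter_upwards [hU.mem_nhds hz] with x hx using h3 x hx)
    rw [h2 w hw] at h4
    exact h4.hasDerivAt.differentiableAt
  have hhD : DifferentiableOn ℂ h D := fun w hw => (hhd w hw).differentiableWithinAt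
  have hφU : ∀ t : ℝ, 0 ≤ t → ∀ w ∈ D, h w + Complex.I * t ∈ U := fun t ht w hw =>
    hUt _ (h1 w hw) t ht
  refine ⟨h, fun w hw => ⟨h1 w hw, h2 w hw⟩, ?_, ?_⟩
  · refine ⟨?_, ?_, ?_, ?_, ?_, ?_⟩
    · intro t ht w hw
      exact hg.mapsTo (hφU t ht w hw)
    · intro t ht
      exact hgd.comp (hhD.add_const _) fun w hw => hφU t ht w hw
    · intro z hz
      simp only [Complex.ofReal_zero, mul_zero, add_zero]
      exact h2 z hz
    · intro s t hs ht z hz
      show g (h z + Complex.I * ((t + s : ℝ) : ℂ)) =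
        g (h (g (h z + Complex.I * (s : ℂ))) + Complex.I * (t : ℂ))
      rw [h3 _ (hφU s hs z hz)]
      congr 1
      push_cast
      ring
    · intro t₀ ht₀
      rw [tendstoLocallyUniformlyOn_iff_forall_tendsto]
      intro x hx
      -- joint continuity
      have hj : ContinuousAt (fun q : ℝ × ℂ => g (h q.2 + Complex.I * (q.1 : ℂ))) (t₀, x) := by
        have hc1 : ContinuousAt (fun q : ℝ × ℂ => h q.2 + Complex.I * (q.1 : ℂ)) (t₀, x) := by
          refine ContinuousAt.add ?_ (by fun_prop)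
          exact ContinuousAt.comp (g := h) (f := fun q : ℝ × ℂ => q.2) (x := (t₀, x))
            (hhd x hx).continuousAt continuousAt_snd
        refine ContinuousAt.comp (g := g)
          (f := fun q : ℝ × ℂ => h q.2 + Complex.I * (q.1 : ℂ)) (x := (t₀, x)) ?_ hc1
        exact (hgd.differentiableAt (hU.mem_nhds (hφU t₀ ht₀ x hx))).continuousAt
      have hle : 𝓝[Ici 0] t₀ ×ˢ 𝓝[D] x ≤ 𝓝 (t₀, x) := by
        rw [nhds_prod_eq]
        exact Filter.prod_mono nhdsWithin_le_nhds nhdsWithin_le_nhds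
      have hA : Tendsto (fun y : ℝ × ℂ => g (h y.2 + Complex.I * (y.1 : ℂ)))
          (𝓝[Ici 0] t₀ ×ˢ 𝓝[D] x) (𝓝 (g (h x + Complex.I * (t₀ : ℂ)))) :=
        hj.tendsto.mono_left hle
      have hB : Tendsto (fun y : ℝ × ℂ => g (h y.2 + Complex.I * (t₀ : ℂ)))
          (𝓝[Ici 0] t₀ ×ˢ 𝓝[D] x) (𝓝 (g (h x + Complex.I * (t₀ : ℂ)))) := by
        have h5 : ContinuousAt (fun y : ℝ × ℂ => ((t₀, y.2) : ℝ × ℂ)) (t₀, x) := by fun_prop
        have h6 : ContinuousAt (fun y : ℝ × ℂ => g (h y.2 + Complex.I * (t₀ : ℂ))) (t₀, x) :=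
          ContinuousAt.comp (g := fun q : ℝ × ℂ => g (h q.2 + Complex.I * (q.1 : ℂ)))
            (f := fun y : ℝ × ℂ => ((t₀, y.2) : ℝ × ℂ)) (x := (t₀, x)) hj h5
        exact h6.tendsto.mono_left hle
      have hC := hB.prodMk_nhds hA
      exact hC.mono_right (nhds_le_uniformity _)
    · intro t ht z hz heq
      have h5 : h z + Complex.I * (t : ℂ) = h z :=
        hg.injOn (hφU t ht.le z hz) (h1 z hz) (heq.trans (h2 z hz).symm)
      have h6 : Complex.I * (t : ℂ) = 0 := by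
        have := congrArg (fun u => u - h z) h5
        simpa using this
      rcases mul_eq_zero.1 h6 with h7 | h7
      · exact Complex.I_ne_zero h7
      · exact ht.ne' (Complex.ofReal_eq_zero.1 h7)
  · refine ⟨hhD, ?_, ?_, ?_⟩
    · intro w hw w' hw' he
      rw [← h2 w hw, ← h2 w' hw', he]
    · intro t ht z hz
      exact h3 _ (hφU t ht z hz)
    · ext z
      simp only [mem_iUnion, mem_image, mem_Ici, mem_ofPred_eq, exists_prop]
      rw [hUh z]
      constructor
      · rintro ⟨t, ht, u, ⟨w, hw, rfl⟩, rfl⟩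
        refine ⟨t, ht, ?_⟩
        rw [sub_add_cancel]
        exact h1 w hw
      · rintro ⟨t, ht, hz⟩
        exact ⟨t, ht, z + Complex.I * t, ⟨g (z + Complex.I * t), hg.mapsTo hz, h3 _ hz⟩, by ring⟩

theorem t_S3 : S3 := main

end Pool.Agent.R763.KO.S3
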